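import Mathlib

namespace Pool.Agent.Results.MP_07d99b_al.Example

open MvPolynomial

noncomputable def mono (a b c : ℕ) : Fin 3 →₀ ℕ := Finsupp.equivFunOnFinite.symm ![a, b, c]

noncomputable def P : Fin 3 → MvPolynomial (Fin 3) ℝ :=
  ![monomial (mono 1 0 0) 1 + monomial (mono 0 1 0) 1,
    monomial (mono 1 0 1) 1 + (monomial (mono 1 0 0) 1 + monomial (mono 0 1 0) 1),
    monomial (mono 3 0 0) 1 + monomial (mono 1 0 2) (-1)]

theorem mono_eq (a b c a' b' c' : ℕ) :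
    mono a b c = mono a' b' c' ↔ a = a' ∧ b = b' ∧ c = c' := by
  simp [mono]

theorem mono_apply (a b c : ℕ) (i : Fin 3) : mono a b c i = ![a, b, c] i := rfl

theorem eval_mono (a b c : ℕ) (r : ℝ) (x : Fin 3 → ℝ) :
    eval x (monomial (mono a b c) r) = r * (x 0 ^ a * x 1 ^ b * x 2 ^ c) := by
  rw [eval_monomial, Finsupp.prod_fintype _ _ (by simp), Fin.prod_univ_three]
  rfl

theorem deg_mono (a b c : ℕ) (r : ℝ) :
    (monomial (mono a b c) r : MvPolynomial (Fin 3) ℝ).totalDegree ≤ a + b + c := by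
  refine (totalDegree_monomial_le _ _).trans ?_
  rw [Finsupp.sum_fintype _ _ (by simp), Fin.sum_univ_three]
  exact le_rfl

theorem evalP (x : Fin 3 → ℝ) : eval x (P 0) = x 0 + x 1 ∧
    eval x (P 1) = x 0 * x 2 + (x 0 + x 1) ∧ eval x (P 2) = x 0 ^ 3 - x 0 * x 2 ^ 2 := by
  refine ⟨?_, ?_, ?_⟩ <;> simp [P, eval_mono] <;> ring

theorem mem_vars_of (p : MvPolynomial (Fin 3) ℝ) (a b c : ℕ) (i : Fin 3)
    (h : coeff (mono a b c) p ≠ 0) (hi : ![a, b, c] i ≠ 0) : i ∈ p.vars :=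
  (mem_vars i).2 ⟨mono a b c, mem_support_iff.2 h, Finsupp.mem_support_iff.2 hi⟩

theorem varsP : (0 ∈ (P 0).vars ∧ 1 ∈ (P 0).vars) ∧
    (0 ∈ (P 1).vars ∧ 1 ∈ (P 1).vars ∧ 2 ∈ (P 1).vars) ∧ 0 ∈ (P 2).vars ∧ 2 ∈ (P 2).vars := by
  refine ⟨⟨mem_vars_of _ 1 0 0 _ ?_ ?_, mem_vars_of _ 0 1 0 _ ?_ ?_⟩,
    ⟨mem_vars_of _ 1 0 0 _ ?_ ?_, mem_vars_of _ 0 1 0 _ ?_ ?_, mem_vars_of _ 1 0 1 _ ?_ ?_⟩,
    mem_vars_of _ 3 0 0 _ ?_ ?_, mem_vars_of _ 1 0 2 _ ?_ ?_⟩ <;>
  simp [P, coeff_monomial, mono_eq]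

theorem solve (a b : ℝ) : ∃ s t : ℝ, s * t = a ∧ s ^ 3 - s * t ^ 2 = b := by
  by_cases ha : a = 0
  · obtain ⟨s, hs⟩ : ∃ s : ℝ, s ^ 3 = b := by
      have h := Real.rpow_inv_natCast_pow (x := |b|) (n := 3) (abs_nonneg b) (by norm_num)
      rcases abs_cases b with h1 | h1
      · exact ⟨_, h.trans h1.1⟩
      · refine ⟨-(|b| ^ (((3 : ℕ) : ℝ)⁻¹)), ?_⟩
        rw [Odd.neg_pow (by decide), h, h1.1, neg_neg]
    exact ⟨s, 0, by simp [ha], by simpa using hs⟩
  · have hc : Continuous fun s : ℝ => s ^ 4 - b * s - a ^ 2 := by fun_prop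
    have h0 : (0 : ℝ) ∈ Set.Icc ((fun s : ℝ => s ^ 4 - b * s - a ^ 2) 0)
        ((fun s : ℝ => s ^ 4 - b * s - a ^ 2) (1 + |b| + a ^ 2)) := by
      have h1 : b ≤ |b| := le_abs_self b
      have h2 : 0 ≤ |b| := abs_nonneg b
      have h3 : 0 ≤ a ^ 2 := sq_nonneg a
      set M := 1 + |b| + a ^ 2 with hM
      have h4 : 1 ≤ M := by linarith
      have h5 : M ^ 2 ≤ M ^ 4 := pow_le_pow_right₀ h4 (by norm_num)
      constructor
      · simp only; nlinarith
      · simp only; nlinarith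
    obtain ⟨s, -, hs⟩ := intermediate_value_Icc (by positivity) hc.continuousOn h0
    simp only at hs
    have hs0 : s ≠ 0 := by
      rintro rfl
      apply ha
      have : a ^ 2 = 0 := by linarith
      exact pow_eq_zero_iff (two_ne_zero) |>.1 this
    refine ⟨s, a / s, by field_simp, ?_⟩
    field_simp
    linarith

theorem result : ∃ (n : ℕ) (p : Fin n → MvPolynomial (Fin n) ℝ), 1 ≤ n ∧
    Function.Surjective (fun (x : Fin n → ℝ) (i : Fin n) => eval x (p i)) ∧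
    (∀ i, eval 0 (p i) = 0) ∧
    (∀ i, (p i).totalDegree ≤ i.1 + 1) ∧
    {x : Fin n → ℝ | ∀ i, eval x (p i) = 0}.Infinite ∧
    (∀ s : Finset (Fin n), 1 ≤ s.card → s.card < n →
      s.card + 1 ≤ (s.biUnion fun i => (p i).vars).card) ∧
    (∀ i m, coeff m (p i) ≠ 0 → coeff m (p i) = 1 ∨ coeff m (p i) = -1) := by
  refine ⟨3, P, by norm_num, ?_, ?_, ?_, ?_, ?_, ?_⟩
  · intro y
    obtain ⟨s, t, h1, h2⟩ := solve (y 1 - y 0) (y 2)
    refine ⟨![s, y 0 - s, t], funext fun i => ?_⟩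
    obtain ⟨e0, e1, e2⟩ := evalP ![s, y 0 - s, t]
    fin_cases i
    · simpa using e0
    · refine e1.trans ?_
      simp [h1]
    · refine e2.trans ?_
      simpa using h2
  · intro i
    obtain ⟨e0, e1, e2⟩ := evalP 0
    fin_cases i
    · simpa using e0
    · simpa using e1
    · simpa using e2
  · intro i
    fin_cases i
    · exact (totalDegree_add _ _).trans (max_le (deg_mono _ _ _ _) (deg_mono _ _ _ _))
    · exact (totalDegree_add _ _).trans (max_le (deg_mono _ _ _ _) ((totalDegree_add _ _).trans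
        (max_le ((deg_mono _ _ _ _).trans (by norm_num)) ((deg_mono _ _ _ _).trans (by norm_num)))))
    · exact (totalDegree_add _ _).trans (max_le (deg_mono _ _ _ _) (deg_mono _ _ _ _))
  · refine Set.infinite_of_injective_forall_mem (f := fun t : ℝ => ![0, 0, t]) ?_ ?_
    · intro s t h
      exact congrFun h 2
    · intro t i
      obtain ⟨e0, e1, e2⟩ := evalP ![0, 0, t]
      fin_cases i
      · simpa using e0
      · simpa using e1
      · simpa using e2
  · intro s h1 h2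
    obtain ⟨⟨a0, a1⟩, ⟨b0, b1, b2⟩, c0, c2⟩ := varsP
    let V : Fin 3 → Finset (Fin 3) := ![{0, 1}, {0, 1, 2}, {0, 2}]
    have hV : ∀ i, V i ⊆ (P i).vars := by
      intro i
      fin_cases i <;> simp [V, Finset.insert_subset_iff, *]
    have h3 : ∀ s : Finset (Fin 3), 1 ≤ s.card → s.card < 3 →
        s.card + 1 ≤ (s.biUnion V).card := by decide
    exact (h3 s h1 h2).trans (Finset.card_le_card (Finset.biUnion_mono fun i _ => hV i))
  · intro i m
    fin_cases i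
    · simp only [P, Fin.zero_eta, Matrix.cons_val_zero, coeff_add, coeff_monomial]
      split_ifs with h1 h2 <;> simp
      exact absurd (h1.trans h2.symm) (by simp [mono_eq])
    · simp only [P, Fin.mk_one, Matrix.cons_val_one, Matrix.cons_val_zero, coeff_add,
        coeff_monomial]
      split_ifs with h1 h2 h3 h4 h5 h6 <;> simp <;> subst_vars <;> simp_all [mono_eq]
    · show coeff m (monomial (mono 3 0 0) 1 + monomial (mono 1 0 2) (-1)) ≠ 0 →
        coeff m (monomial (mono 3 0 0) 1 + monomial (mono 1 0 2) (-1)) = 1 ∨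
        coeff m (monomial (mono 3 0 0) 1 + monomial (mono 1 0 2) (-1)) = (-1 : ℝ)
      simp only [coeff_add, coeff_monomial]
      split_ifs <;> simp

end Pool.Agent.Results.MP_07d99b_al.Example
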